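import Pool.Agent.Q294.Loops.Defs

/-!
# Graphs with a free cofinite group action
-/

open MeasureTheory Filter
open scoped ENNReal

set_option linter.style.haveILetI false

namespace Q294.Loops

section Mult

variable {V K : Type*} [Fintype K] [DecidableEq V]

/-- multiplicities from a neighbour list -/
def mul (nb : V → K → V) (x y : V) : ℕ := (Finset.univ.filter fun k => nb x k = y).card

lemma mul_symm {nb : V → K → V} (ι : V × K → V × K) (h1 : ∀ x k, (ι (x, k)).1 = nb x k)
    (h2 : Function.Involutive ι) (x y : V) : mul nb x y = mul nb y x := by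
  have key : ∀ x y, mul nb x y ≤ mul nb y x := by
    intro x y
    unfold mul
    refine Finset.card_le_card_of_injOn (fun k => (ι (x, k)).2) ?_ ?_
    · intro k hk
      simp only [Finset.coe_filter, Finset.mem_univ, true_and, Set.mem_ofPred_eq] at hk ⊢
      have e : ι (x, k) = (y, (ι (x, k)).2) := by
        rw [Prod.ext_iff]; exact ⟨(h1 x k).trans hk, rfl⟩
      have h3 := h2 (x, k)
      rw [e] at h3
      rw [← h1, h3]
    · intro k hk k' hk' he
      simp only [Finset.coe_filter, Finset.mem_univ, true_and, Set.mem_ofPred_eq] at hk hk'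
      have e : ι (x, k) = ι (x, k') := by
        rw [Prod.ext_iff]
        exact ⟨by rw [h1, h1, hk, hk'], he⟩
      exact congrArg Prod.snd (h2.injective e)
  exact le_antisymm (key x y) (key y x)

lemma tsum_mul_ennreal (nb : V → K → V) (x : V) (f : V → ℝ≥0∞) :
    ∑' y, (mul nb x y : ℝ≥0∞) * f y = ∑ k, f (nb x k) := by
  have e : ∀ y, (mul nb x y : ℝ≥0∞) * f y = ∑ k, if nb x k = y then f y else 0 := by
    intro y
    rw [mul, Finset.card_filter, Nat.cast_sum, Finset.sum_mul]
    refine Finset.sum_congr rfl fun k _ => ?_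
    split_ifs <;> simp
  simp_rw [e]
  rw [Summable.tsum_finsetSum (fun _ _ => ENNReal.summable)]
  refine Finset.sum_congr rfl fun k _ => ?_
  rw [tsum_eq_single (nb x k) (fun y hy => by simp [hy.symm])]
  simp

lemma hasSum_mul_real (nb : V → K → V) (x : V) (f : V → ℝ) :
    HasSum (fun y => (mul nb x y : ℝ) * f y) (∑ k, f (nb x k)) := by
  have e : (fun y => (mul nb x y : ℝ) * f y) = fun y => ∑ k, if nb x k = y then f y else 0 := by
    funext y
    rw [mul, Finset.card_filter, Nat.cast_sum, Finset.sum_mul]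
    refine Finset.sum_congr rfl fun k _ => ?_
    split_ifs <;> simp
  rw [e]
  refine hasSum_sum fun k _ => ?_
  have := hasSum_single (f := fun y => if nb x k = y then f y else 0) (nb x k)
    (fun y hy => by simp [hy.symm])
  simpa using this

end Mult

section Nat

variable {K : Type*} [Fintype K]

lemma stepProb_nonneg (d : ℕ) (a : ℕ → ℕ → ℕ) (n : ℕ) : ∀ x y, 0 ≤ stepProb d a n x y := by
  induction n with
  | zero => intro x y; simp only [stepProb]; split_ifs <;> norm_num
  | succ n ih =>
    intro x y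
    simp only [stepProb]
    exact tsum_nonneg fun z => mul_nonneg (by positivity) (ih z y)

lemma stepProb_mul_le {d : ℕ} (nb : ℕ → K → ℕ) (h : ℕ → ℝ) (hpos : ∀ x, 0 < h x)
    {lam : ℝ} (hlam : 0 ≤ lam) (hs : ∀ x, ∑ k, h (nb x k) ≤ lam * h x) (n : ℕ) :
    ∀ x y, stepProb d (mul nb) n x y * h y ≤ (lam / d) ^ n * h x := by
  induction n with
  | zero =>
    intro x y
    simp only [stepProb, pow_zero, one_mul]
    split_ifs with e
    · rw [e]; simp
    · simpa using (hpos x).le
  | succ n ih =>
    intro x y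
    simp only [stepProb]
    have h1 : HasSum (fun z => (mul nb x z : ℝ) / d * stepProb d (mul nb) n z y)
        (∑ k, stepProb d (mul nb) n (nb x k) y / d) := by
      have := hasSum_mul_real nb x (fun z => stepProb d (mul nb) n z y / d)
      convert this using 2 with z
      ring
    rw [h1.tsum_eq, Finset.sum_mul]
    calc ∑ k, stepProb d (mul nb) n (nb x k) y / d * h y
        ≤ ∑ k, (lam / d) ^ n / d * h (nb x k) := by
          refine Finset.sum_le_sum fun k _ => ?_
          have := ih (nb x k) y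
          have hd : (0 : ℝ) ≤ 1 / d := by positivity
          calc stepProb d (mul nb) n (nb x k) y / d * h y
              = (stepProb d (mul nb) n (nb x k) y * h y) * (1 / d) := by ring
            _ ≤ ((lam / d) ^ n * h (nb x k)) * (1 / d) := mul_le_mul_of_nonneg_right this hd
            _ = _ := by ring
      _ = (lam / d) ^ n / d * ∑ k, h (nb x k) := by rw [Finset.mul_sum]
      _ ≤ (lam / d) ^ n / d * (lam * h x) := by
          refine mul_le_mul_of_nonneg_left (hs x) (by positivity)
      _ = _ := by ring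

lemma spectralRadius_le {d : ℕ} (nb : ℕ → K → ℕ) (h : ℕ → ℝ) (hpos : ∀ x, 0 < h x)
    {lam : ℝ} (hlam : 0 ≤ lam) (hs : ∀ x, ∑ k, h (nb x k) ≤ lam * h x) (o : ℕ) :
    spectralRadius d (mul nb) o ≤ lam / d := by
  have h1 : ∀ n, stepProb d (mul nb) n o o ≤ (lam / d) ^ n := fun n =>
    le_of_mul_le_mul_right (stepProb_mul_le nb h hpos hlam hs n o o) (hpos o)
  have hl : 0 ≤ lam / d := by positivity
  unfold spectralRadius
  refine limsup_le_of_le ?_ ?_
  · refine isCoboundedUnder_le_of_le atTop (x := 0) fun n => ?_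
    exact Real.rpow_nonneg (stepProb_nonneg _ _ _ _ _) _
  · filter_upwards [eventually_gt_atTop 0] with n hn
    have hn' : (0 : ℝ) < n := by exact_mod_cast hn
    calc stepProb d (mul nb) (2 * n) o o ^ (1 / (2 * (n : ℝ)))
        ≤ ((lam / d) ^ (2 * n)) ^ (1 / (2 * (n : ℝ))) :=
          Real.rpow_le_rpow (stepProb_nonneg _ _ _ _ _) (h1 _) (by positivity)
      _ = lam / d := by
          rw [← Real.rpow_natCast, ← Real.rpow_mul hl]
          have : ((2 * n : ℕ) : ℝ) * (1 / (2 * (n : ℝ))) = 1 := by
            push_cast; field_simp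
          rw [this, Real.rpow_one]

end Nat

/-- Graphs on `Γ × B` with a free action of `Γ`. -/
theorem exists_graph {Γ B K : Type} [Group Γ] [Fintype B] [Nonempty B] [Fintype K]
    [Countable Γ] [Infinite Γ] (d : ℕ) (hd : Fintype.card K = d)
    (nb : Γ × B → K → Γ × B) (ι : (Γ × B) × K → (Γ × B) × K)
    (hι1 : ∀ x k, (ι (x, k)).1 = nb x k) (hι2 : Function.Involutive ι)
    (hequi : ∀ (γ : Γ) (x : Γ × B) (k : K), nb (x.1 * γ, x.2) k = ((nb x k).1 * γ, (nb x k).2))
    (hconn : ∀ x y, Relation.ReflTransGen (fun u v => ∃ k, nb u k = v) x y)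
    (h : Γ × B → ℝ) (hpos : ∀ x, 0 < h x) {lam : ℝ} (hlam : 0 ≤ lam)
    (hs : ∀ x, ∑ k, h (nb x k) ≤ lam * h x) (c : B) (hc : ∃ k, nb (1, c) k = (1, c)) :
    ∃ (Ω : Type) (_ : MeasurableSpace Ω) (P : Measure Ω) (_ : IsProbabilityMeasure P)
      (a : Ω → ℕ → ℕ → ℕ) (o : Ω → ℕ),
      (∀ ω, IsRegularGraph d (a ω)) ∧ IsUnimodular P a o ∧
      (∀ ω v, spectralRadius d (a ω) v ≤ lam / d) ∧
      ((Fintype.card B : ℝ≥0∞))⁻¹ ≤ P {ω | 1 ≤ a ω (o ω) (o ω)} := by
  classical
  obtain ⟨e⟩ : Nonempty (Γ × B ≃ ℕ) := by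
    haveI : Infinite (Γ × B) := inferInstance
    haveI : Countable (Γ × B) := inferInstance
    obtain ⟨i⟩ := nonempty_denumerable (Γ × B)
    exact ⟨Denumerable.eqv _⟩
  set nb' : ℕ → K → ℕ := fun x k => e (nb (e.symm x) k) with hnb'
  have hmul : ∀ x y, mul nb' (e x) (e y) = mul nb x y := by
    intro x y
    unfold mul
    congr 1
    ext k
    simp [hnb']
  have hmul' : ∀ x y, mul nb' x y = mul nb (e.symm x) (e.symm y) := by
    intro x y
    rw [← hmul]; simp
  letI : MeasurableSpace B := ⊤
  haveI : MeasurableSingletonClass B := ⟨fun _ => trivial⟩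
  set P : Measure B := (PMF.uniformOfFintype B).toMeasure with hP
  haveI : IsProbabilityMeasure P := by rw [hP]; infer_instance
  have hlint : ∀ F : B → ℝ≥0∞, ∫⁻ b, F b ∂P = ((Fintype.card B : ℝ≥0∞))⁻¹ * ∑ b, F b := by
    intro F
    rw [lintegral_fintype, Finset.mul_sum]
    refine Finset.sum_congr rfl fun b _ => ?_
    rw [hP, PMF.toMeasure_apply_singleton _ _ (measurableSet_singleton b),
      PMF.uniformOfFintype_apply, mul_comm]
  refine ⟨B, ⊤, P, inferInstance, fun _ => mul nb', fun b => e (1, b), ?_, ?_, ?_, ?_⟩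
  · intro _
    refine ⟨?_, ?_, ?_⟩
    · intro x y
      show mul nb' x y = mul nb' y x
      rw [hmul', hmul']
      exact mul_symm ι hι1 hι2 _ _
    · intro x
      have := tsum_mul_ennreal nb' x (fun _ => 1)
      simp only [mul_one, Finset.sum_const, Finset.card_univ, nsmul_eq_mul, hd] at this
      exact this
    · intro x y
      have h1 := hconn (e.symm x) (e.symm y)
      have h2 := Relation.ReflTransGen.lift (r := fun u v => ∃ k, nb u k = v)
        (p := fun u v => mul nb' u v ≠ 0) e ?_ _ _ h1
      · simpa [Function.onFun] using h2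
      · rintro u v ⟨k, hk⟩
        show mul nb' (e u) (e v) ≠ 0
        rw [hmul]
        unfold mul
        rw [Finset.card_ne_zero]
        exact ⟨k, by simp [hk]⟩
  · refine ⟨measurable_from_top, measurable_from_top, ?_⟩
    intro f _ hf
    have hinv : ∀ (γ : Γ) (x y : Γ × B), f (mul nb') (e (x.1 * γ, x.2)) (e (y.1 * γ, y.2)) =
        f (mul nb') (e x) (e y) := by
      intro γ x y
      set τ : Equiv.Perm (Γ × B) :=
        { toFun := fun z => (z.1 * γ, z.2)
          invFun := fun z => (z.1 * γ⁻¹, z.2)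
          left_inv := fun z => by simp
          right_inv := fun z => by simp } with hτ
      set σ : Equiv.Perm ℕ := (e.symm.trans τ).trans e with hσ
      have h1 := hf σ (mul nb') (e x) (e y)
      have h2 : (fun u v => mul nb' (σ u) (σ v)) = mul nb' := by
        funext u v
        rw [hmul' u v, hσ]
        simp only [Equiv.trans_apply]
        rw [hmul]
        unfold mul
        congr 1
        ext k
        simp only [Finset.mem_filter, Finset.mem_univ, true_and, hτ, Equiv.coe_fn_mk]
        rw [hequi]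
        constructor
        · intro h3
          rw [Prod.ext_iff] at h3 ⊢
          exact ⟨mul_right_cancel h3.1, h3.2⟩
        · intro h3
          rw [h3]
      rw [h2] at h1
      rw [h1]
      simp [hσ, hτ]
    rw [hlint, hlint]
    congr 1
    have hL : ∀ b : B, ∑' x, f (mul nb') (e (1, b)) x =
        ∑' g : Γ, ∑ b' : B, f (mul nb') (e (1, b)) (e (g, b')) := by
      intro b
      rw [← e.tsum_eq (fun x => f (mul nb') (e (1, b)) x)]
      rw [ENNReal.tsum_prod (f := fun g b' => f (mul nb') (e (1, b)) (e (g, b')))]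
      simp_rw [tsum_fintype]
    have hR : ∀ b : B, ∑' x, f (mul nb') x (e (1, b)) =
        ∑' g : Γ, ∑ b' : B, f (mul nb') (e (g, b')) (e (1, b)) := by
      intro b
      rw [← e.tsum_eq (fun x => f (mul nb') x (e (1, b)))]
      rw [ENNReal.tsum_prod (f := fun g b' => f (mul nb') (e (g, b')) (e (1, b)))]
      simp_rw [tsum_fintype]
    simp_rw [hL, hR]
    rw [← Summable.tsum_finsetSum (fun _ _ => ENNReal.summable),
      ← Summable.tsum_finsetSum (fun _ _ => ENNReal.summable)]
    rw [← (Equiv.inv Γ).tsum_eq (fun g => ∑ b : B, ∑ b' : B, f (mul nb') (e (g, b')) (e (1, b)))]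
    refine tsum_congr fun g => ?_
    rw [Finset.sum_comm]
    refine Finset.sum_congr rfl fun b' _ => Finset.sum_congr rfl fun b _ => ?_
    have := hinv g⁻¹ (1, b) (g, b')
    simp only [one_mul, mul_inv_cancel] at this
    rw [← this]
    rfl
  · intro _ v
    refine spectralRadius_le nb' (fun x => h (e.symm x)) (fun x => hpos _) hlam (fun x => ?_) v
    simpa [hnb'] using hs (e.symm x)
  · have h1 : {ω : B | 1 ≤ mul nb' (e (1, ω)) (e (1, ω))} ⊇ {c} := by
      rintro b rfl
      show 1 ≤ mul nb' (e (1, b)) (e (1, b))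
      rw [hmul]
      unfold mul
      rw [Nat.one_le_iff_ne_zero, Finset.card_ne_zero]
      obtain ⟨k, hk⟩ := hc
      exact ⟨k, by simp [hk]⟩
    refine le_trans ?_ (measure_mono h1)
    rw [hP, PMF.toMeasure_apply_singleton _ _ (measurableSet_singleton c),
      PMF.uniformOfFintype_apply]

end Q294.Loops
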