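import Mathlib

/-!
# Regular graphs with loops and multiple edges, spectral radius, unimodular random graphs
-/

open MeasureTheory Filter
open scoped ENNReal

namespace Q294.Loops

/-- The multiplicities `a x y` of a connected `d`-regular graph with vertex set `ℕ`; `a x x` is the
number of loops at `x`, each loop counts once towards the degree. -/
structure IsRegularGraph (d : ℕ) (a : ℕ → ℕ → ℕ) : Prop where
  symm : ∀ x y, a x y = a y x
  degree : ∀ x, ∑' y, (a x y : ℝ≥0∞) = d
  connected : ∀ x y, Relation.ReflTransGen (fun u v => a u v ≠ 0) x y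

/-- `n`-step transition probabilities `p_n(x, y)` of the simple random walk, which moves from `x` to
`y` with probability `a x y / d`. -/
noncomputable def stepProb (d : ℕ) (a : ℕ → ℕ → ℕ) : ℕ → ℕ → ℕ → ℝ
  | 0, x, y => if x = y then 1 else 0
  | n + 1, x, y => ∑' z, (a x z : ℝ) / d * stepProb d a n z y

/-- The spectral radius `limsup p_{2n}(o, o)^(1/(2n))`. -/
noncomputable def spectralRadius (d : ℕ) (a : ℕ → ℕ → ℕ) (o : ℕ) : ℝ :=
  limsup (fun n : ℕ => stepProb d a (2 * n) o o ^ (1 / (2 * (n : ℝ)))) atTop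

/-- The random graph with multiplicities `a ω` and root `o ω` satisfies the mass transport
principle: `E ∑_x f(G, o, x) = E ∑_x f(G, x, o)` for every nonnegative measurable function `f` of
doubly rooted graphs, i.e. which is invariant under renumbering the vertices. -/
structure IsUnimodular {Ω : Type} [MeasurableSpace Ω] (P : Measure Ω) (a : Ω → ℕ → ℕ → ℕ)
    (o : Ω → ℕ) : Prop where
  meas_graph : Measurable a
  meas_root : Measurable o
  mass_transport : ∀ f : (ℕ → ℕ → ℕ) → ℕ → ℕ → ℝ≥0∞, (∀ x y, Measurable fun b => f b x y) →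
    (∀ (σ : Equiv.Perm ℕ) (b : ℕ → ℕ → ℕ) (x y : ℕ),
      f (fun u v => b (σ u) (σ v)) x y = f b (σ x) (σ y)) →
    ∫⁻ ω, ∑' x, f (a ω) (o ω) x ∂P = ∫⁻ ω, ∑' x, f (a ω) x (o ω) ∂P

end Q294.Loops
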