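import Pool.Agent.Q294.Loops.Words

/-!
# The tree of `q`-ary balls with a loop at every centre
-/

set_option linter.style.haveILetI false

namespace Q294.Loops

variable (q R : ℕ)

/-- letters: (child direction, leaf of the ball) -/
abbrev Let : Type := Fin q × List.Vector (Fin q) R

/-- the ball: words of length at most `R`, the last letter first -/
abbrev Bl : Type := {b : List (Fin q) // b.length ≤ R}

noncomputable instance : Fintype (Bl q R) :=
  (List.finite_length_le (Fin q) R).fintype

instance : Nonempty (Bl q R) := ⟨⟨[], by simp⟩⟩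

lemma card_Bl_succ : Fintype.card (Bl q (R + 1)) = 1 + q * Fintype.card (Bl q R) := by
  have e : Bl q (R + 1) ≃ Option (Fin q × Bl q R) :=
    { toFun := fun b => match b with
        | ⟨[], _⟩ => none
        | ⟨i :: b, h⟩ => some (i, ⟨b, by simpa using h⟩)
      invFun := fun o => match o with
        | none => ⟨[], by simp⟩
        | some (i, b) => ⟨i :: b.1, by simpa using b.2⟩
      left_inv := by
        rintro ⟨_ | ⟨i, b⟩, h⟩ <;> rfl
      right_inv := by
        rintro (_ | ⟨i, b⟩) <;> rfl }
  rw [Fintype.card_congr e, Fintype.card_option, Fintype.card_prod, Fintype.card_fin, add_comm]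

lemma card_Bl_zero : Fintype.card (Bl q 0) = 1 := by
  rw [Fintype.card_eq_one_iff]
  refine ⟨⟨[], by simp⟩, ?_⟩
  rintro ⟨b, hb⟩
  have : b = [] := List.eq_nil_of_length_eq_zero (by omega)
  subst this
  rfl

lemma card_Bl_le (hq : 2 ≤ q) : Fintype.card (Bl q R) + 1 ≤ 2 * q ^ R := by
  induction R with
  | zero => rw [card_Bl_zero]; simp
  | succ R ih =>
    rw [card_Bl_succ]
    have : q * (Fintype.card (Bl q R) + 1) ≤ q * (2 * q ^ R) := Nat.mul_le_mul_left _ ih
    calc 1 + q * Fintype.card (Bl q R) + 1 ≤ q * (Fintype.card (Bl q R) + 1) := by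
          rw [mul_add]; omega
      _ ≤ _ := this
      _ = _ := by ring

variable {q R}

abbrev Vt (q R : ℕ) : Type := Gam (Let q R) × Bl q R

/-- neighbours: direction `none` is the parent in the ball (the loop at the centre), the other
directions lead to the children in the ball, or to other balls -/
def nb (x : Vt q R) : Option (Fin q) → Vt q R
  | none => (x.1, ⟨x.2.1.tail, by have := x.2.2; simp; omega⟩)
  | some i => if h : x.2.1.length < R then (x.1, ⟨i :: x.2.1, by simp; omega⟩)
      else (gen (i, ⟨x.2.1, le_antisymm x.2.2 (not_lt.mp h)⟩) * x.1, x.2)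

/-- the dart in the opposite direction -/
def rev (x : Vt q R) : Option (Fin q) → Option (Fin q)
  | none => x.2.1.head?
  | some i => if x.2.1.length < R then none else some i

def io (z : Vt q R × Option (Fin q)) : Vt q R × Option (Fin q) := (nb z.1 z.2, rev z.1 z.2)

lemma io_invol : Function.Involutive (io (q := q) (R := R)) := by
  rintro ⟨⟨g, ⟨b, hb⟩⟩, _ | i⟩
  · cases b with
    | nil => simp [io, nb, rev]
    | cons i b =>
      have h : b.length < R := by simpa using hb
      simp [io, nb, rev, h]
  · by_cases h : b.length < R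
    · simp [io, nb, rev, h]
    · simp only [io, nb, rev, h, dite_false, if_false]
      rw [← mul_assoc, gen_mul_gen, one_mul]

lemma nb_equi (γ : Gam (Let q R)) (x : Vt q R) (k : Option (Fin q)) :
    nb (x.1 * γ, x.2) k = ((nb x k).1 * γ, (nb x k).2) := by
  rcases k with _ | i
  · rfl
  · simp only [nb]
    split_ifs with h
    · rfl
    · rw [mul_assoc]

/-! ### connectedness -/

lemma adj_symm {u v : Vt q R} (h : ∃ k, nb u k = v) : ∃ k, nb v k = u := by
  obtain ⟨k, rfl⟩ := h
  exact ⟨rev u k, congrArg Prod.fst (io_invol (u, k))⟩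

lemma conn_centre (g : Gam (Let q R)) (b : List (Fin q)) (hb : b.length ≤ R) :
    Relation.ReflTransGen (fun u v : Vt q R => ∃ k, nb u k = v) (g, ⟨b, hb⟩)
      (g, ⟨[], by simp⟩) := by
  induction b with
  | nil => exact Relation.ReflTransGen.refl
  | cons i b ih =>
    refine Relation.ReflTransGen.head ⟨none, rfl⟩ ?_
    exact ih (by simp at hb; omega)

lemma conn_symm {u v : Vt q R}
    (h : Relation.ReflTransGen (fun u v : Vt q R => ∃ k, nb u k = v) u v) :
    Relation.ReflTransGen (fun u v : Vt q R => ∃ k, nb u k = v) v u := by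
  induction h with
  | refl => exact Relation.ReflTransGen.refl
  | tail _ h2 ih => exact Relation.ReflTransGen.head (adj_symm h2) ih

lemma conn_one (g : Gam (Let q R)) :
    Relation.ReflTransGen (fun u v : Vt q R => ∃ k, nb u k = v) (g, ⟨[], by simp⟩)
      (1, ⟨[], by simp⟩) := by
  induction g using gam_induction with
  | h1 => exact Relation.ReflTransGen.refl
  | h2 s g ih =>
    obtain ⟨i, ℓ, hℓ⟩ := s
    refine (conn_symm (conn_centre (gen (i, ⟨ℓ, hℓ⟩) * g) ℓ hℓ.le)).trans ?_
    refine Relation.ReflTransGen.head (b := (g, ⟨ℓ, hℓ.le⟩)) ⟨some i, ?_⟩ ?_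
    · have : ¬ ℓ.length < R := by omega
      simp only [nb, this, dite_false]
      rw [← mul_assoc, gen_mul_gen, one_mul]
    · exact (conn_centre g ℓ hℓ.le).trans ih

lemma conn_all (x y : Vt q R) :
    Relation.ReflTransGen (fun u v : Vt q R => ∃ k, nb u k = v) x y := by
  obtain ⟨g, b, hb⟩ := x
  obtain ⟨g', b', hb'⟩ := y
  exact ((conn_centre g b hb).trans (conn_one g)).trans
    (conn_symm ((conn_centre g' b' hb').trans (conn_one g')))

end Q294.Loops
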