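import Pool.Agent.Q294.Loops.Graph

/-!
# A positive superharmonic function on the tree of balls
-/

set_option linter.style.haveILetI false

namespace Q294.Loops

/-! ### numbers -/

section Num

variable {a q x : ℝ}

lemma num1 (ha : 0 < a) (haq : a ^ 2 * q = 1) : q * a = 1 / a := by
  field_simp; linarith

/-- weight of one step towards the centre of the ball, at distance `j` from the centre -/
noncomputable def Fw (a q : ℝ) (j : ℕ) : ℝ := a * (1 + 1 / (2 * q ^ j + 1))

lemma Fw_pos (ha : 0 < a) (hq : 2 ≤ q) (j : ℕ) : 0 < Fw a q j := by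
  unfold Fw
  have : 0 < q ^ j := by positivity
  positivity

lemma num2 (ha : 0 < a) (haq : a ^ 2 * q = 1) (hq : 2 ≤ q) (j : ℕ) :
    1 / Fw a q (j + 1) + (q - 1) * a + Fw a q j ≤ 2 / a := by
  unfold Fw
  have hx : 0 < q ^ j := by positivity
  set x := q ^ j with hxdef
  rw [pow_succ]
  rw [← hxdef]
  have hq0 : 0 < q := by linarith
  have e1 : 1 / (a * (1 + 1 / (2 * (x * q) + 1))) = (1 / a) * (1 - 1 / (2 * (x * q) + 2)) := by
    field_simp; ring
  have e2 : (q - 1) * a = (1 / a) * (1 - 1 / q) := by
    field_simp; nlinarith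
  have e3 : a * (1 + 1 / (2 * x + 1)) = (1 / a) * (1 / q + 1 / (2 * (x * q) + q)) := by
    field_simp
    rw [haq]
  rw [e1, e2, e3]
  have e4 : 1 / (2 * (x * q) + q) ≤ 1 / (2 * (x * q) + 2) := by
    apply one_div_le_one_div_of_le <;> nlinarith [mul_pos hx hq0]
  have ha' : 0 < 1 / a := by positivity
  have : (1 / a) * (1 - 1 / (2 * (x * q) + 2)) + (1 / a) * (1 - 1 / q) +
      (1 / a) * (1 / q + 1 / (2 * (x * q) + q)) =
      (1 / a) * (2 + (1 / (2 * (x * q) + q) - 1 / (2 * (x * q) + 2))) := by ring
  rw [this]
  calc (1 / a) * (2 + (1 / (2 * (x * q) + q) - 1 / (2 * (x * q) + 2))) ≤ (1 / a) * 2 := by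
        refine mul_le_mul_of_nonneg_left ?_ ha'.le
        linarith
    _ = 2 / a := by ring

lemma num3 (ha : 0 < a) (haq : a ^ 2 * q = 1) (hq : 2 ≤ q) :
    1 / Fw a q 0 + (q - 1) * a + 1 ≤ 2 / a := by
  unfold Fw
  have hq0 : 0 < q := by linarith
  have e1 : 1 / (a * (1 + 1 / (2 * q ^ 0 + 1))) = (1 / a) * (3 / 4) := by
    rw [pow_zero]; field_simp; norm_num
  have e2 : (q - 1) * a = (1 / a) * (1 - a ^ 2) := by
    field_simp; nlinarith
  rw [e1, e2]
  have ha' : 0 < 1 / a := by positivity
  have e3 : (1 : ℝ) = (1 / a) * a := by field_simp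
  calc (1 / a) * (3 / 4) + (1 / a) * (1 - a ^ 2) + 1
      = (1 / a) * (3 / 4 + (1 - a ^ 2) + a) := by field_simp
    _ ≤ (1 / a) * 2 := by
        refine mul_le_mul_of_nonneg_left ?_ ha'.le
        nlinarith [sq_nonneg (a - 1 / 2)]
    _ = 2 / a := by ring

lemma num4 (ha : 0 < a) (haq : a ^ 2 * q = 1) (hq : 2 ≤ q) (j : ℕ) :
    1 / a + (q - 1) * a + Fw a q j ≤ (1 / a) * (2 + 1 / q ^ (j + 1)) := by
  unfold Fw
  have hx : 0 < q ^ j := by positivity
  rw [pow_succ]
  set x := q ^ j with hxdef
  have hq0 : 0 < q := by linarith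
  have e2 : (q - 1) * a = (1 / a) * (1 - 1 / q) := by
    field_simp; nlinarith
  have e3 : a * (1 + 1 / (2 * x + 1)) = (1 / a) * (1 / q + 1 / (2 * (x * q) + q)) := by
    field_simp
    rw [haq]
  rw [e2, e3]
  have e4 : 1 / (2 * (x * q) + q) ≤ 1 / (x * q) := by
    apply one_div_le_one_div_of_le <;> nlinarith [mul_pos hx hq0]
  have ha' : 0 < 1 / a := by positivity
  have : 1 / a + (1 / a) * (1 - 1 / q) + (1 / a) * (1 / q + 1 / (2 * (x * q) + q)) =
      (1 / a) * (2 + 1 / (2 * (x * q) + q)) := by ring
  rw [this]
  exact mul_le_mul_of_nonneg_left (by linarith) ha'.le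

end Num

/-! ### the function -/

lemma togL_same {S : Type} [DecidableEq S] (s : S) (w : List S) : togL s (s :: w) = w := by
  simp [togL]

lemma togL_ne {S : Type} [DecidableEq S] {s t : S} (h : s ≠ t) (w : List S) :
    togL s (t :: w) = s :: t :: w := by
  simp [togL, h]

variable {q R : ℕ}

/-- product of the weights from the leaves to distance `j` of the centre -/
noncomputable def Pw (a : ℝ) (q R : ℕ) (j : ℕ) : ℝ := ∏ i ∈ Finset.Ico j R, Fw a q i

lemma Pw_top (a : ℝ) : Pw a q R R = 1 := by simp [Pw]

lemma Pw_succ (a : ℝ) {j : ℕ} (hj : j < R) : Pw a q R j = Fw a q j * Pw a q R (j + 1) := by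
  unfold Pw
  rw [Finset.prod_eq_prod_Ico_succ_bot hj]

lemma Pw_pos {a : ℝ} (ha : 0 < a) (hq : 2 ≤ q) (j : ℕ) : 0 < Pw a q R j :=
  Finset.prod_pos fun i _ => Fw_pos ha (by exact_mod_cast hq) i

/-- relative weights in a ball which is entered at the leaf `ℓ` -/
noncomputable def ph (a : ℝ) (R : ℕ) (ℓ : List (Fin q)) : List (Fin q) → ℝ
  | [] => Pw a q R 0
  | i :: b => if (i :: b) <:+ ℓ then Pw a q R (b.length + 1) else a * ph a R ℓ b

lemma ph_pos {a : ℝ} (ha : 0 < a) (hq : 2 ≤ q) (ℓ b : List (Fin q)) : 0 < ph a R ℓ b := by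
  induction b with
  | nil => exact Pw_pos ha hq 0
  | cons i b ih =>
    simp only [ph]
    split_ifs
    · exact Pw_pos ha hq _
    · positivity

lemma ph_suffix {a : ℝ} {ℓ b : List (Fin q)} (h : b <:+ ℓ) : ph a R ℓ b = Pw a q R b.length := by
  cases b with
  | nil => rfl
  | cons i b => simp only [ph, if_pos h, List.length_cons]

lemma ph_not {a : ℝ} {ℓ b : List (Fin q)} {i : Fin q} (h : ¬ (i :: b) <:+ ℓ) :
    ph a R ℓ (i :: b) = a * ph a R ℓ b := by
  simp only [ph, if_neg h]

/-- the function on words × balls -/
noncomputable def Hf (a : ℝ) : List (Let q R) → List (Fin q) → ℝ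
  | [], b => a ^ b.length
  | s :: w, b => Hf a w s.2.1 * a * ph a R s.2.1 b

lemma Hf_pos {a : ℝ} (ha : 0 < a) (hq : 2 ≤ q) (w : List (Let q R)) (b : List (Fin q)) :
    0 < Hf a w b := by
  induction w generalizing b with
  | nil => exact pow_pos ha _
  | cons s w ih =>
    have := ih s.2.1
    have := ph_pos (R := R) ha hq s.2.1 b
    simp only [Hf]
    positivity

lemma sum_one_special {q : ℕ} (i₀ : Fin q) (f : Fin q → ℝ) (A B : ℝ) (h0 : f i₀ = A)
    (h1 : ∀ i, i ≠ i₀ → f i = B) : ∑ i, f i = A + (q - 1) * B := by
  have : ∀ i, f i = B + if i = i₀ then A - B else 0 := by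
    intro i
    split_ifs with e
    · rw [e, h0]; ring
    · rw [h1 i e]; ring
  simp_rw [this]
  rw [Finset.sum_add_distrib]
  simp
  ring

lemma exists_suffix_cons {α : Type*} {b ℓ : List α} (h : b <:+ ℓ) (hl : b.length < ℓ.length) :
    ∃ i, (i :: b) <:+ ℓ := by
  obtain ⟨t, rfl⟩ := h
  have ht : t ≠ [] := by
    rintro rfl; simp at hl
  refine ⟨t.getLast ht, t.dropLast, ?_⟩
  conv_rhs => rw [← List.dropLast_append_getLast ht]
  simp

lemma suffix_cons_unique {α : Type*} {b ℓ : List α} {i j : α} (h : (i :: b) <:+ ℓ)
    (h' : (j :: b) <:+ ℓ) : i = j := by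
  have h1 := List.suffix_of_suffix_length_le h h' (by simp)
  have h2 := h1.eq_of_length (by simp)
  simpa using h2

/-- total weight of the neighbours inside and outside the ball -/
theorem Hf_super {a : ℝ} (ha : 0 < a) (haq : a ^ 2 * q = 1) (hq : 2 ≤ q) (hR : 1 ≤ R)
    (w : List (Let q R)) (b : List (Fin q)) (hb : b.length ≤ R) :
    (Hf a w b.tail + ∑ i, if h : b.length < R then Hf a w (i :: b) else
      Hf a (togL (i, ⟨b, le_antisymm hb (not_lt.mp h)⟩) w) b) ≤
      (1 / a) * (2 + 1 / (q : ℝ) ^ R) * Hf a w b := by
  have hq' : (2 : ℝ) ≤ q := by exact_mod_cast hq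
  have hqa := num1 ha haq
  have hlam2 : 2 / a ≤ (1 / a) * (2 + 1 / (q : ℝ) ^ R) := by
    have : 0 ≤ 1 / (q : ℝ) ^ R := by positivity
    have h' : 0 < 1 / a := by positivity
    calc 2 / a = (1 / a) * 2 := by ring
      _ ≤ _ := mul_le_mul_of_nonneg_left (by linarith) h'.le
  have hHpos := Hf_pos ha hq w b
  -- it suffices to compare with a multiple
  by_cases hbR : b.length < R
  · simp only [hbR, dite_true]
    rcases w with _ | ⟨s, w⟩
    · -- root ball
      simp only [Hf]
      have hsum : ∑ i : Fin q, a ^ (i :: b).length = (1 / a) * a ^ b.length := by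
        simp only [List.length_cons, Finset.sum_const, Finset.card_univ, Fintype.card_fin,
          nsmul_eq_mul]
        rw [pow_succ, ← hqa]; ring
      rw [hsum]
      have hpar : a ^ b.tail.length ≤ (1 / a) * a ^ b.length := by
        rcases b with _ | ⟨j, b⟩
        · simp only [List.tail_nil, List.length_nil, pow_zero, mul_one]
          rw [le_div_iff₀ ha]
          nlinarith
        · simp only [List.tail_cons, List.length_cons, pow_succ]
          rw [show (1 / a) * (a ^ b.length * a) = a ^ b.length by field_simp]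
      calc a ^ b.tail.length + 1 / a * a ^ b.length ≤ (2 / a) * a ^ b.length := by
            have : (2 / a) * a ^ b.length = 1 / a * a ^ b.length + 1 / a * a ^ b.length := by ring
            rw [this]; linarith
        _ ≤ _ := mul_le_mul_of_nonneg_right hlam2 (by positivity)
    · -- other balls
      simp only [Hf]
      set K := Hf a w s.2.1 * a with hK
      have hKpos : 0 < K := by
        have := Hf_pos ha hq w s.2.1
        positivity
      have hℓ : s.2.1.length = R := s.2.2
      rw [← Finset.mul_sum]
      have goal : ph a R s.2.1 b.tail + ∑ i, ph a R s.2.1 (i :: b) ≤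
          (2 / a) * ph a R s.2.1 b := by
        by_cases hsuf : b <:+ s.2.1
        · obtain ⟨i₀, hi₀⟩ := exists_suffix_cons hsuf (by omega)
          have hsum : ∑ i, ph a R s.2.1 (i :: b) =
              Pw a q R (b.length + 1) + (q - 1) * (a * Pw a q R b.length) := by
            refine sum_one_special i₀ _ _ _ ?_ ?_
            · rw [ph_suffix hi₀]; rfl
            · intro i hi
              rw [ph_not (fun h => hi (suffix_cons_unique h hi₀)), ph_suffix hsuf]
          rw [hsum, ph_suffix hsuf]
          have hP : Pw a q R (b.length + 1) = (1 / Fw a q b.length) * Pw a q R b.length := by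
            rw [Pw_succ a hbR]
            have := Fw_pos ha hq' b.length
            field_simp
          rw [hP]
          have hPpos := Pw_pos (R := R) ha hq b.length
          rcases b with _ | ⟨j, b⟩
          · simp only [List.tail_nil, List.length_nil] at *
            rw [ph_suffix (List.nil_suffix)]
            simp only [List.length_nil]
            have := num3 ha haq hq'
            nlinarith
          · simp only [List.tail_cons, List.length_cons] at *
            have hsuf' : b <:+ s.2.1 := (List.suffix_cons j b).trans hsuf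
            rw [ph_suffix hsuf', Pw_succ a (show b.length < R by omega)]
            have := num2 ha haq hq' b.length
            nlinarith
        · -- off the path
          have hsum : ∑ i, ph a R s.2.1 (i :: b) = (1 / a) * ph a R s.2.1 b := by
            have : ∀ i, ph a R s.2.1 (i :: b) = a * ph a R s.2.1 b := fun i =>
              ph_not (fun h => hsuf ((List.suffix_cons i b).trans h))
            simp_rw [this]
            simp only [Finset.sum_const, Finset.card_univ, Fintype.card_fin, nsmul_eq_mul]
            rw [← hqa]; ring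
          rw [hsum]
          rcases b with _ | ⟨j, b⟩
          · exact absurd List.nil_suffix hsuf
          · rw [ph_not hsuf, List.tail_cons]
            apply le_of_eq
            field_simp
            ring
      calc K * ph a R s.2.1 b.tail + K * ∑ i, ph a R s.2.1 (i :: b)
          = K * (ph a R s.2.1 b.tail + ∑ i, ph a R s.2.1 (i :: b)) := by ring
        _ ≤ K * ((2 / a) * ph a R s.2.1 b) := mul_le_mul_of_nonneg_left goal hKpos.le
        _ = (2 / a) * (K * ph a R s.2.1 b) := by ring
        _ ≤ _ := mul_le_mul_of_nonneg_right hlam2 (by simpa [Hf, hK] using hHpos.le)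
  · -- leaves
    have hbR' : b.length = R := le_antisymm hb (not_lt.mp hbR)
    simp only [hbR, dite_false]
    obtain ⟨j, b', rfl⟩ : ∃ j b', b = j :: b' := by
      rcases b with _ | ⟨j, b'⟩
      · simp at hbR'; omega
      · exact ⟨j, b', rfl⟩
    set v : List.Vector (Fin q) R := ⟨j :: b', hbR'⟩ with hv
    have hv1 : v.1 = j :: b' := rfl
    have hnew : ∀ (i : Fin q) (w : List (Let q R)),
        Hf a ((i, v) :: w) (j :: b') = a * Hf a w (j :: b') := by
      intro i w
      simp only [Hf, hv1]
      rw [ph_suffix List.suffix_rfl, hbR', Pw_top]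
      ring
    rcases w with _ | ⟨s, w⟩
    · have hsum : ∑ i : Fin q, Hf a (togL (i, v) []) (j :: b') =
          (1 / a) * Hf a ([] : List (Let q R)) (j :: b') := by
        simp only [togL, hnew]
        simp only [Finset.sum_const, Finset.card_univ, Fintype.card_fin, nsmul_eq_mul]
        rw [← hqa]; ring
      have hpar : Hf a ([] : List (Let q R)) (j :: b').tail =
          (1 / a) * Hf a ([] : List (Let q R)) (j :: b') := by
        simp only [Hf, List.tail_cons, List.length_cons, pow_succ]
        field_simp
      show Hf a ([] : List (Let q R)) (j :: b').tail + ∑ i : Fin q, Hf a (togL (i, v) []) (j :: b')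
        ≤ _
      rw [hsum, hpar]
      calc 1 / a * Hf a ([] : List (Let q R)) (j :: b') +
            1 / a * Hf a ([] : List (Let q R)) (j :: b')
          = (2 / a) * Hf a ([] : List (Let q R)) (j :: b') := by ring
        _ ≤ _ := mul_le_mul_of_nonneg_right hlam2 hHpos.le
    · show Hf a (s :: w) (j :: b').tail + ∑ i : Fin q, Hf a (togL (i, v) (s :: w)) (j :: b')
        ≤ _
      by_cases hs : s.2 = v
      · -- entrance leaf
        obtain ⟨i₀, u⟩ := s
        simp only at hs
        subst hs
        have hHs : Hf a ((i₀, v) :: w) (j :: b') = a * Hf a w (j :: b') := hnew i₀ w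
        have hsum : ∑ i : Fin q, Hf a (togL (i, v) ((i₀, v) :: w)) (j :: b') =
            (1 / a) * Hf a ((i₀, v) :: w) (j :: b') +
              (q - 1) * (a * Hf a ((i₀, v) :: w) (j :: b')) := by
          refine sum_one_special i₀ _ _ _ ?_ ?_
          · rw [togL_same, hHs]; field_simp
          · intro i hi
            have : ((i, v) : Let q R) ≠ (i₀, v) := by
              intro h; apply hi; exact congrArg Prod.fst h
            rw [togL_ne this]
            exact hnew i _
        rw [hsum]
        have hRpos : b'.length < R := by simp at hbR'; omega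
        have hlen : b'.length + 1 = R := by simpa using hbR'
        have hpar : Hf a ((i₀, v) :: w) (j :: b').tail =
            Fw a q b'.length * Hf a ((i₀, v) :: w) (j :: b') := by
          simp only [Hf, List.tail_cons, hv1]
          rw [ph_suffix (List.suffix_cons j b'), ph_suffix List.suffix_rfl, hbR', Pw_top,
            Pw_succ a hRpos, hlen, Pw_top]
          ring
        rw [hpar]
        have h4 := num4 ha haq hq' b'.length
        rw [hlen] at h4
        nlinarith
      · have hne : ∀ i : Fin q, ((i, v) : Let q R) ≠ s := by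
          intro i h
          apply hs
          rw [← h]
        have hsum : ∑ i : Fin q, Hf a (togL (i, v) (s :: w)) (j :: b') =
            (1 / a) * Hf a (s :: w) (j :: b') := by
          have : ∀ i : Fin q, Hf a (togL (i, v) (s :: w)) (j :: b') =
              a * Hf a (s :: w) (j :: b') := by
            intro i
            rw [togL_ne (hne i)]
            exact hnew i (s :: w)
          simp_rw [this]
          simp only [Finset.sum_const, Finset.card_univ, Fintype.card_fin, nsmul_eq_mul]
          rw [← hqa]; ring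
        rw [hsum]
        have hnsuf : ¬ (j :: b') <:+ s.2.1 := by
          intro h
          apply hs
          exact Subtype.ext (h.eq_of_length (by rw [hbR', s.2.2])).symm
        have hpar : Hf a (s :: w) (j :: b').tail = (1 / a) * Hf a (s :: w) (j :: b') := by
          simp only [Hf, List.tail_cons]
          rw [ph_not hnsuf]
          field_simp
        rw [hpar]
        calc 1 / a * Hf a (s :: w) (j :: b') + 1 / a * Hf a (s :: w) (j :: b')
            = (2 / a) * Hf a (s :: w) (j :: b') := by ring
          _ ≤ _ := mul_le_mul_of_nonneg_right hlam2 hHpos.le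

end Q294.Loops
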