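import Pool.Agent.Q294.Loops.Abs

/-!
# Reduced words, toggles, and the group generated by them
-/

namespace Q294.Loops

section Words

variable {S : Type} [DecidableEq S]

/-- toggle the first letter -/
def togL (s : S) : List S → List S
  | [] => [s]
  | t :: l => if s = t then l else s :: t :: l

/-- reduced words -/
def Red (l : List S) : Prop := l.IsChain (· ≠ ·)

lemma red_nil : Red ([] : List S) := List.isChain_nil

lemma Red.tail {s : S} {l : List S} (h : Red (s :: l)) : Red l := by
  unfold Red at *
  exact h.tail

lemma red_togL {s : S} {l : List S} (h : Red l) : Red (togL s l) := by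
  cases l with
  | nil => exact List.isChain_singleton _
  | cons t l =>
    simp only [togL]
    split_ifs with e
    · exact h.tail
    · exact List.IsChain.cons_cons e h

lemma togL_togL {s : S} {l : List S} (h : Red l) : togL s (togL s l) = l := by
  cases l with
  | nil => simp [togL]
  | cons t l =>
    simp only [togL]
    split_ifs with e
    · subst e
      cases l with
      | nil => simp [togL]
      | cons u l =>
        have hne : s ≠ u := by
          unfold Red at h
          exact h.rel_head
        simp [togL, hne]
    · simp [togL]

variable (S) in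
/-- the set of reduced words -/
def W : Type := {l : List S // Red l}

/-- toggles as permutations -/
def T (s : S) : Equiv.Perm (W S) :=
  Function.Involutive.toPerm (fun w : W S => ⟨togL s w.1, red_togL w.2⟩)
    (fun w => Subtype.ext (togL_togL w.2))

@[simp] lemma T_val (s : S) (w : W S) : (T s w).1 = togL s w.1 := rfl

lemma T_mul_T (s : S) : T s * T s = 1 := by
  ext w
  exact Subtype.ext (togL_togL w.2)

variable (S) in
/-- the group generated by the toggles -/
def Gam : Subgroup (Equiv.Perm (W S)) := Subgroup.closure (Set.range T)

/-- generators -/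
def gen (s : S) : Gam S := ⟨T s, Subgroup.subset_closure ⟨s, rfl⟩⟩

lemma gen_mul_gen (s : S) : gen s * gen s = 1 := Subtype.ext (T_mul_T s)

instance [Countable S] : Countable (Gam S) := by
  have h : Gam S = (FreeGroup.lift (T : S → Equiv.Perm (W S))).range := by
    rw [FreeGroup.range_lift_eq_closure]
    rfl
  haveI : Countable (FreeGroup S) := by
    unfold FreeGroup
    exact Quot.mk_surjective.countable
  rw [h]
  exact (MonoidHom.rangeRestrict_surjective _).countable

/-- the empty word -/
def emp : W S := ⟨[], red_nil⟩

/-- the word of a group element -/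
def wd (g : Gam S) : List S := (g.1 emp).1

@[simp] lemma wd_one : wd (1 : Gam S) = [] := rfl

@[simp] lemma wd_gen_mul (s : S) (g : Gam S) : wd (gen s * g) = togL s (wd g) := rfl

lemma gam_induction {p : Gam S → Prop} (h1 : p 1) (h2 : ∀ s g, p g → p (gen s * g)) (g : Gam S) :
    p g := by
  obtain ⟨g, hg⟩ := g
  induction hg using Subgroup.closure_induction_left with
  | one => exact h1
  | mul_left x hx y hy ih =>
    obtain ⟨s, rfl⟩ := hx
    exact h2 s _ ih
  | inv_mul_cancel x hx y hy ih =>
    obtain ⟨s, rfl⟩ := hx
    have : (⟨(T s)⁻¹ * y, Subgroup.mul_mem _ (Subgroup.inv_mem _ (Subgroup.subset_closure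
        ⟨s, rfl⟩)) hy⟩ : Gam S) = gen s * ⟨y, hy⟩ := by
      apply Subtype.ext
      show (T s)⁻¹ * y = T s * y
      rw [inv_eq_of_mul_eq_one_left (T_mul_T s)]
    rw [this]
    exact h2 s _ ih

lemma infinite_gam (s t : S) (hst : s ≠ t) : Infinite (Gam S) := by
  have key : ∀ n : ℕ, ∃ g : Gam S, (wd g).length = n := by
    intro n
    induction n with
    | zero => exact ⟨1, rfl⟩
    | succ n ih =>
      obtain ⟨g, hg⟩ := ih
      have : ∃ u : S, (togL u (wd g)).length = n + 1 := by
        rcases hw : wd g with _ | ⟨v, l⟩
        · rw [hw] at hg
          exact ⟨s, by simp [togL] at hg ⊢; omega⟩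
        · rw [hw] at hg
          have : ∃ u : S, u ≠ v := by
            by_cases e : s = v
            · exact ⟨t, fun h => hst (e.trans h.symm)⟩
            · exact ⟨s, e⟩
          obtain ⟨u, hu⟩ := this
          refine ⟨u, ?_⟩
          simp only [togL, if_neg hu]
          simpa using hg
      obtain ⟨u, hu⟩ := this
      exact ⟨gen u * g, by rw [wd_gen_mul]; exact hu⟩
  exact Infinite.of_surjective (fun g : Gam S => (wd g).length) key

end Words

end Q294.Loops
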